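import Pool.Agent.H73.CBE.Stmts

/-! Board cbe, row CST (MP_e1af46). -/

set_option autoImplicit false

namespace Pool.CBE

theorem cst_aux (m : ℕ) (C x : ℝ) (hC : 0 ≤ C) (hx : 1 ≤ x) :
    3 * (5 ^ (2 * (m + 1)) * (1 + 4 * x) ^ (2 * m)) *
      (5 ^ (2 * (m + 1)) * (1 + 8 * x ^ (4 * (m + 1) + 1)) ^ (2 * m)) *
      (18 * (C / x ^ (4 * (m + 1)))) ^ (2 * (m + 1)) ≤
    3 * 5 ^ (2 * (m + 1)) * 5 ^ (2 * (m + 1)) * 5 ^ (2 * m) * 9 ^ (2 * m) *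
      (18 * C) ^ (2 * (m + 1)) / x ^ (4 * (m + 1) + 4) := by
  have hx0 : 0 < x := by linarith
  have h1 : (1 + 4 * x) ^ (2 * m) ≤ (5 * x) ^ (2 * m) :=
    pow_le_pow_left₀ (by positivity) (by linarith) _
  have hp : 1 ≤ x ^ (4 * (m + 1) + 1) := one_le_pow₀ hx
  have h2 : (1 + 8 * x ^ (4 * (m + 1) + 1)) ^ (2 * m) ≤ (9 * x ^ (4 * (m + 1) + 1)) ^ (2 * m) :=
    pow_le_pow_left₀ (by positivity) (by linarith) _
  calc 3 * (5 ^ (2 * (m + 1)) * (1 + 4 * x) ^ (2 * m)) *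
        (5 ^ (2 * (m + 1)) * (1 + 8 * x ^ (4 * (m + 1) + 1)) ^ (2 * m)) *
        (18 * (C / x ^ (4 * (m + 1)))) ^ (2 * (m + 1))
      ≤ 3 * (5 ^ (2 * (m + 1)) * (5 * x) ^ (2 * m)) *
        (5 ^ (2 * (m + 1)) * (9 * x ^ (4 * (m + 1) + 1)) ^ (2 * m)) *
        (18 * (C / x ^ (4 * (m + 1)))) ^ (2 * (m + 1)) := by
        gcongr
    _ = 3 * 5 ^ (2 * (m + 1)) * 5 ^ (2 * (m + 1)) * 5 ^ (2 * m) * 9 ^ (2 * m) *
        (18 * C) ^ (2 * (m + 1)) / x ^ (4 * (m + 1) + 4) := by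
        have e1 : (18 * (C / x ^ (4 * (m + 1)))) ^ (2 * (m + 1)) =
            (18 * C) ^ (2 * (m + 1)) / x ^ (4 * (m + 1) * (2 * (m + 1))) := by
          rw [← mul_div_assoc, div_pow, ← pow_mul]
        have e2 : (9 * x ^ (4 * (m + 1) + 1)) ^ (2 * m) =
            9 ^ (2 * m) * x ^ ((4 * (m + 1) + 1) * (2 * m)) := by
          rw [mul_pow, ← pow_mul]
        have e3 : (5 * x) ^ (2 * m) = 5 ^ (2 * m) * x ^ (2 * m) := mul_pow _ _ _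
        have e4 : x ^ (4 * (m + 1) * (2 * (m + 1))) =
            x ^ (2 * m) * x ^ ((4 * (m + 1) + 1) * (2 * m)) * x ^ (4 * (m + 1) + 4) := by
          rw [← pow_add, ← pow_add]
          congr 1
          ring
        rw [e1, e2, e3, e4]
        have n1 : x ^ (2 * m) ≠ 0 := by positivity
        have n2 : x ^ ((4 * (m + 1) + 1) * (2 * m)) ≠ 0 := by positivity
        have n3 : x ^ (4 * (m + 1) + 4) ≠ 0 := by positivity
        generalize x ^ (2 * m) = a at *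
        generalize x ^ ((4 * (m + 1) + 1) * (2 * m)) = b at *
        generalize x ^ (4 * (m + 1) + 4) = c at *
        field_simp

theorem CST_thm : CSTStmt := by
  intro n C hn hC
  obtain ⟨m, rfl⟩ : ∃ m, n = m + 1 := ⟨n - 1, by omega⟩
  have hm : 2 * (m + 1) - 2 = 2 * m := by omega
  rw [hm]
  set B : ℝ := 3 * 5 ^ (2 * (m + 1)) * 5 ^ (2 * (m + 1)) * 5 ^ (2 * m) * 9 ^ (2 * m) *
      (18 * C) ^ (2 * (m + 1)) with hB
  have hB0 : 0 ≤ B := by positivity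
  refine ⟨⌈B⌉₊ + 1, by omega, ?_⟩
  have hK : B ≤ ((⌈B⌉₊ + 1 : ℕ) : ℝ) := by
    have := Nat.le_ceil B
    push_cast
    linarith
  have hK1 : (1 : ℝ) ≤ ((⌈B⌉₊ + 1 : ℕ) : ℝ) := by exact_mod_cast (show 1 ≤ ⌈B⌉₊ + 1 by omega)
  generalize ((⌈B⌉₊ + 1 : ℕ) : ℝ) = x at hK hK1
  refine (cst_aux m C x (by linarith) hK1).trans ?_
  rw [← hB]
  have hx0 : 0 < x := by linarith
  have hp : x ≤ x ^ (4 * (m + 1) + 4) := by
    calc x = x ^ 1 := (pow_one x).symm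
      _ ≤ x ^ (4 * (m + 1) + 4) := pow_le_pow_right₀ hK1 (by omega)
  rw [div_le_one (by positivity)]
  linarith

end Pool.CBE
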